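import Pool.Agent.MHP.StmtsC

/-!
# Row FIX of squad MHP (MP_09e7c7_co)

A property of finite index for the gluing of rooted graphs has a dependent row: stars.
-/

set_option autoImplicit false

open scoped Classical

namespace Pool.Agent.MHP.H53

open Pool.Agent.HMT Pool.Agent.MHP

/-- the star with `l` leaves -/
def st (l : ℕ) : SimpleGraph (Option (Fin l)) where
  Adj v w := v ≠ w ∧ (v = none ∨ w = none)
  symm := ⟨fun _ _ h => ⟨h.1.symm, h.2.symm⟩⟩
  loopless := ⟨fun _ h => h.1 rfl⟩

/-- the star rooted at its centre -/
def star (l : ℕ) : PG where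
  V := Option (Fin l)
  G := st l
  r := none

theorem st_connected (l : ℕ) : (st l).Connected := by
  have h0 : ∀ v : Option (Fin l), (st l).Reachable none v := by
    intro v
    by_cases hv : v = none
    · rw [hv]
    · exact SimpleGraph.Adj.reachable (⟨fun h => hv h.symm, Or.inl rfl⟩ : (st l).Adj none v)
  refine (SimpleGraph.connected_iff _).2 ⟨fun v w => (h0 v).symm.trans (h0 w), ⟨none⟩⟩

theorem st_edge_card (l : ℕ) : Nat.card (st l).edgeSet = l := by
  have h1 : (st l).edgeSet = Set.range (fun i : Fin l => s((none : Option (Fin l)), some i)) := by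
    ext e
    induction e using Sym2.ind with
    | _ a b =>
      rw [SimpleGraph.mem_edgeSet, Set.mem_range]
      constructor
      · rintro ⟨hne, h | h⟩
        · subst h
          cases b with
          | none => exact absurd rfl hne
          | some i => exact ⟨i, rfl⟩
        · subst h
          cases a with
          | none => exact absurd rfl hne
          | some i => exact ⟨i, Sym2.eq_swap⟩
      · rintro ⟨i, hi⟩
        rw [Sym2.eq_iff] at hi
        rcases hi with ⟨h2, h3⟩ | ⟨h2, h3⟩
        · rw [← h2, ← h3]
          exact ⟨by simp, Or.inl rfl⟩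
        · rw [← h2, ← h3]
          exact ⟨by simp, Or.inr rfl⟩
  rw [h1, Nat.card_range_of_injective]
  · simp
  · intro i j hij
    have h2 : s((none : Option (Fin l)), some i) = s(none, some j) := hij
    rw [Sym2.eq_iff] at h2
    rcases h2 with ⟨_, h3⟩ | ⟨h3, _⟩
    · exact Option.some_injective _ h3
    · exact absurd h3 (by simp)

theorem st_induce_card (l : ℕ) (X : Set (Option (Fin l))) :
    Nat.card ((st l).induce X).edgeSet ≤ Nat.card X - 1 := by
  by_cases hn : none ∈ X
  · have h1 : ((st l).induce X).edgeSet ⊆
        (fun v : X => s((⟨none, hn⟩ : X), v)) '' {v : X | v ≠ ⟨none, hn⟩} := by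
      intro e
      induction e using Sym2.ind with
      | _ a b =>
        intro he
        rw [SimpleGraph.mem_edgeSet] at he
        obtain ⟨hne, h⟩ : (st l).Adj a.1 b.1 := he
        rcases h with h | h
        · refine ⟨b, ?_, ?_⟩
          · intro hb
            apply hne
            rw [h, hb]
          · have : a = ⟨none, hn⟩ := Subtype.ext h
            rw [this]
        · refine ⟨a, ?_, ?_⟩
          · intro ha
            apply hne
            rw [h, ha]
          · have : b = ⟨none, hn⟩ := Subtype.ext h
            rw [this]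
            exact Sym2.eq_swap
    have h2 : Nat.card ((st l).induce X).edgeSet ≤ Set.ncard {v : X | v ≠ ⟨none, hn⟩} := by
      rw [Nat.card_coe_set_eq]
      exact (Set.ncard_le_ncard h1 (Set.toFinite _)).trans (Set.ncard_image_le (Set.toFinite _))
    have h3 : Set.ncard {v : X | v ≠ ⟨none, hn⟩} = Nat.card X - 1 := by
      have h4 : {v : X | v ≠ ⟨none, hn⟩} = ({⟨none, hn⟩} : Set X)ᶜ := by
        ext v
        simp
      rw [h4, Set.ncard_compl, Set.ncard_singleton]
    rw [h3] at h2
    exact h2
  · have h1 : ((st l).induce X).edgeSet = ∅ := by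
      rw [Set.eq_empty_iff_forall_notMem]
      intro e
      induction e using Sym2.ind with
      | _ a b =>
        intro he
        rw [SimpleGraph.mem_edgeSet] at he
        obtain ⟨_, h⟩ : (st l).Adj a.1 b.1 := he
        rcases h with h | h
        · exact hn (h ▸ a.2)
        · exact hn (h ▸ b.2)
    rw [h1]
    simp

theorem star_spr (g l : ℕ) : Spr g (star l).G := by
  right
  constructor
  · refine ⟨SimpleGraph.Coloring.mk (fun v : Option (Fin l) => if v = none then (0 : Fin 2) else 1)
      ?_⟩
    intro v w hvw
    obtain ⟨hne, h⟩ : (st l).Adj v w := hvw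
    rcases h with h | h
    · subst h
      rw [if_pos rfl, if_neg (fun hw => hne hw.symm)]
      exact Fin.zero_ne_one
    · subst h
      rw [if_pos rfl, if_neg hne]
      exact Fin.zero_ne_one.symm
  · intro X _
    have h1 : Nat.card ((star l).G.induce X).edgeSet ≤ Nat.card X - 1 := st_induce_card l X
    exact Nat.mul_le_mul (Nat.le_succ g) h1

theorem star_comp_V (l : ℕ) : Nat.card (star l).comp.V ≤ l + 1 := by
  have h1 : Nat.card (star l).comp.V ≤ Nat.card (Option (Fin l)) :=
    Nat.card_le_card_of_injective
      (fun v : {v : (star l).V // (star l).G.Reachable (star l).r v} => v.1)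
      Subtype.val_injective
  have h2 : Nat.card (Option (Fin l)) = l + 1 := by
    rw [Nat.card_eq_fintype_card]
    simp
  rw [h2] at h1
  exact h1

theorem star_comp_E (l : ℕ) : Nat.card (star l).comp.G.edgeSet ≤ l := by
  have h1 : Nat.card (star l).comp.G.edgeSet ≤ Nat.card (st l).edgeSet :=
    Nat.card_le_card_of_injective
      (SimpleGraph.Embedding.induce {v | (star l).G.Reachable (star l).r v}).mapEdgeSet
      (Function.Embedding.injective _)
  rw [st_edge_card] at h1
  exact h1

theorem star_not_iso {l m : ℕ} (h : l < m) : ¬ PIso (star l).comp (star m) := by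
  rintro ⟨φ, _⟩
  have h1 : Nat.card (star l).comp.V = Nat.card (star m).V := Nat.card_congr φ.toEquiv
  have h2 : Nat.card (star m).V = m + 1 := by
    change Nat.card (Option (Fin m)) = m + 1
    rw [Nat.card_eq_fintype_card]
    simp
  have h3 := star_comp_V l
  omega

/-- Row FIX -/
theorem fix : FixStmt := by
  rintro P g ⟨Q, hQ, τ, R, hR⟩
  have : Fintype Q := Fintype.ofFinite Q
  let v : Fin (Fintype.card Q + 1) → (Q → ℤ) := fun l q => if R q (τ (star l)) then 1 else 0
  have hdep : ¬ LinearIndependent ℤ v := by
    intro h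
    have h1 := h.fintype_card_le_finrank
    rw [Module.finrank_fintype_fun_eq_card, Fintype.card_fin] at h1
    omega
  rw [Fintype.not_linearIndependent_iff] at hdep
  obtain ⟨c, hc, i₁, hi₁⟩ := hdep
  -- the largest index
  have hne : (Finset.univ.filter fun l => c l ≠ 0).Nonempty :=
    ⟨i₁, Finset.mem_filter.2 ⟨Finset.mem_univ _, hi₁⟩⟩
  obtain ⟨l₀, hl₀, hmax⟩ := Finset.exists_max_image _ (fun l => l) hne
  have hc₀ : c l₀ ≠ 0 := (Finset.mem_filter.1 hl₀).2
  have hbig : ∀ l, l₀ < l → c l = 0 := by
    intro l hl
    by_contra h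
    exact absurd (hmax l (Finset.mem_filter.2 ⟨Finset.mem_univ _, h⟩)) (not_le.2 hl)
  refine ⟨star l₀, {l : Fin (Fintype.card Q + 1) // l < l₀}, inferInstance, fun l => star l.1,
    c l₀, fun l => - c l.1, st_connected _, hc₀, star_spr g _, ?_, ?_⟩
  · intro l
    refine ⟨star_spr g _, star_not_iso l.2, ?_⟩
    have h1 : Nat.card (star l₀).G.edgeSet = l₀ := st_edge_card _
    rw [h1]
    exact (star_comp_E _).trans (le_of_lt l.2)
  · intro X _ _
    have hmu : ∀ l : Fin (Fintype.card Q + 1),
        mu P (glue X.G X.r (star l).G (star l).r) = v l (τ X) := by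
      intro l
      have h1 := hR X (star l)
      show (if P.mem (glue X.G X.r (star l).G (star l).r) then (1 : ℤ) else 0)
        = if R (τ X) (τ (star l)) then 1 else 0
      by_cases h2 : R (τ X) (τ (star l))
      · rw [if_pos (h1.2 h2), if_pos h2]
      · rw [if_neg (fun h => h2 (h1.1 h)), if_neg h2]
    have h0 : ∑ l, c l * v l (τ X) = 0 := by
      have h1 := congrFun hc (τ X)
      rw [Finset.sum_apply] at h1
      exact h1
    have hsplit := Finset.sum_filter_add_sum_filter_not Finset.univ
      (fun l : Fin (Fintype.card Q + 1) => l < l₀) (fun l => c l * v l (τ X))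
    rw [h0] at hsplit
    have h2 : ∑ l ∈ Finset.univ.filter (fun l => ¬ l < l₀), c l * v l (τ X)
        = c l₀ * v l₀ (τ X) := by
      apply Finset.sum_eq_single l₀
      · intro l hl hne'
        have h3 : l₀ ≤ l := not_lt.1 (Finset.mem_filter.1 hl).2
        rw [hbig l (lt_of_le_of_ne h3 (Ne.symm hne')), zero_mul]
      · intro h
        exfalso
        apply h
        rw [Finset.mem_filter]
        exact ⟨Finset.mem_univ _, lt_irrefl l₀⟩
    rw [h2] at hsplit
    have h3 : ∑ l : {l : Fin (Fintype.card Q + 1) // l < l₀}, c l.1 * v l.1 (τ X)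
        = ∑ l ∈ Finset.univ.filter (fun l => l < l₀), c l * v l (τ X) := by
      exact (Finset.sum_subtype (Finset.univ.filter (fun l => l < l₀))
        (fun l => by simp) (fun l => c l * v l (τ X))).symm
    have h4 : ∑ l : {l : Fin (Fintype.card Q + 1) // l < l₀},
        (- c l.1) * mu P (glue X.G X.r (star l.1).G (star l.1).r)
        = - ∑ l : {l : Fin (Fintype.card Q + 1) // l < l₀}, c l.1 * v l.1 (τ X) := by
      rw [← Finset.sum_neg_distrib]
      apply Finset.sum_congr rfl
      intro l _
      rw [hmu l.1, neg_mul]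
    rw [hmu l₀, h4, h3]
    linarith

end Pool.Agent.MHP.H53
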